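import Mathlib.Analysis.Normed.Module.Multilinear.Basic
import Mathlib.Analysis.Normed.Operator.BoundedLinearMaps
import Mathlib.Analysis.Complex.Basic

/-!
Banach bimodules, continuous Hochschild cohomology and amenability, as in the problem file.
-/

namespace Pool.Agent.Work.MP_92c8f1_an

universe u v

/-- A Banach `A`-bimodule structure on a complex normed space `X`: a bounded bilinear left
action `a · x = l a x` and a bounded bilinear right action `x · a = r x a`, subject to the usual
associativity laws. -/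
structure Bimodule (A : Type u) [NonUnitalNormedRing A] [NormedSpace ℂ A]
    (X : Type v) [NormedAddCommGroup X] [NormedSpace ℂ X] where
  /-- the left action, `l a x = a · x` -/
  l : A → X → X
  /-- the right action, `r x a = x · a` -/
  r : X → A → X
  /-- the left action is bounded and bilinear -/
  l_bdd : IsBoundedBilinearMap ℂ fun p : A × X => l p.1 p.2
  /-- the right action is bounded and bilinear -/
  r_bdd : IsBoundedBilinearMap ℂ fun p : X × A => r p.1 p.2
  /-- `(ab) · x = a · (b · x)` -/
  l_mul : ∀ a b x, l (a * b) x = l a (l b x)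
  /-- `x · (ab) = (x · a) · b` -/
  r_mul : ∀ a b x, r x (a * b) = r (r x a) b
  /-- `a · (x · b) = (a · x) · b` -/
  l_r : ∀ a b x, l a (r x b) = r (l a x) b

namespace Bimodule

variable {A : Type u} [NonUnitalNormedRing A] [NormedSpace ℂ A]
  {X : Type v} [NormedAddCommGroup X] [NormedSpace ℂ X]

/-- The bimodule is symmetric: `a · x = x · a` for all `a`, `x`. -/
def IsSymmetric (M : Bimodule A X) : Prop := ∀ a x, M.l a x = M.r x a

/-- The Hochschild coboundary `δ f` of a function `f` of `n` variables, at `(a₀, …, aₙ)`: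
`a₀ · f(a₁, …, aₙ) + ∑_{i < n} (-1)^(i+1) f(a₀, …, aᵢ aᵢ₊₁, …, aₙ) + (-1)^(n+1) f(a₀, …, aₙ₋₁) · aₙ`. -/
noncomputable def coboundary (M : Bimodule A X) {n : ℕ} (f : (Fin n → A) → X)
    (a : Fin (n + 1) → A) : X :=
  M.l (a 0) (f fun i => a i.succ)
    + ∑ i : Fin n, (-1 : ℂ) ^ ((i : ℕ) + 1) • f (Fin.contractNth i.castSucc (· * ·) a)
    + (-1 : ℂ) ^ (n + 1) • M.r (f fun i => a i.castSucc) (a (Fin.last n))

/-- `SuccCohomologyVanishes M n` says `Hⁿ⁺¹(A, X) = 0` (plain quotient `ker δ / im δ`): every
bounded `(n+1)`-linear cocycle is the coboundary of a bounded `n`-linear map. -/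
def SuccCohomologyVanishes (M : Bimodule A X) (n : ℕ) : Prop :=
  ∀ f : ContinuousMultilinearMap ℂ (fun _ : Fin (n + 1) => A) X, M.coboundary f = 0 →
    ∃ g : ContinuousMultilinearMap ℂ (fun _ : Fin n => A) X, M.coboundary g = f

end Bimodule

/-- `A` is amenable: `H¹(A, X*) = 0` for every Banach `A`-bimodule `X` (in an arbitrary universe
`v`). A bounded linear map `D : A → X*` is written as the bounded bilinear form
`(a, x) ↦ D(a)(x)`. With the dual actions `(a · φ)(x) = φ(x · a)`, `(φ · a)(x) = φ(a · x)` written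
out, this says: if `D(ab) = a · D(b) + D(a) · b` for all `a`, `b`, then `D(a) = a · φ - φ · a` for
some `φ ∈ X*`. -/
def IsAmenable (A : Type u) [NonUnitalNormedRing A] [NormedSpace ℂ A] : Prop :=
  ∀ (X : Type v) [NormedAddCommGroup X] [NormedSpace ℂ X] [CompleteSpace X] (M : Bimodule A X)
    (D : A → X → ℂ), (IsBoundedBilinearMap ℂ fun p : A × X => D p.1 p.2) →
      (∀ a b x, D (a * b) x = D b (M.r x a) + D a (M.l b x)) →
        ∃ φ : X → ℂ, IsBoundedLinearMap ℂ φ ∧ ∀ a x, D a x = φ (M.r x a) - φ (M.l a x)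

end Pool.Agent.Work.MP_92c8f1_an
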