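import Pool.Agent.Work.MP_92c8f1_an.Space
import Pool.Agent.Work.MP_92c8f1_an.Defs
import Mathlib.Analysis.Normed.Module.WeakDual
import Mathlib.Analysis.Normed.Module.Multilinear.Curry

/-!
Amenability of the algebra of continuous functions on the space of upper sets.
-/

set_option maxSynthPendingDepth 3

namespace Pool.Agent.Work.MP_92c8f1_an

open Set Function Metric

universe v

variable {Λ : Type} [LinearOrder Λ]

/-- the symmetries attached to the idempotents -/
noncomputable def uu (s : WithTop Λ) : C(Om Λ, ℂ) := 1 - (2 : ℂ) • ee s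

theorem uu_mul_self (s : WithTop Λ) : uu s * uu s = 1 := by
  ext U
  simp only [uu, ContinuousMap.mul_apply, ContinuousMap.sub_apply, ContinuousMap.one_apply,
    ContinuousMap.smul_apply, ee_apply]
  split_ifs <;> norm_num

theorem norm_uu_le (s : WithTop Λ) : ‖uu s‖ ≤ 1 := by
  rw [ContinuousMap.norm_le _ zero_le_one]
  intro U
  simp only [uu, ContinuousMap.sub_apply, ContinuousMap.one_apply,
    ContinuousMap.smul_apply, ee_apply]
  split_ifs <;> norm_num

theorem prod_uu_mul_self (T : Finset (WithTop Λ)) : (∏ s ∈ T, uu s) * ∏ s ∈ T, uu s = 1 := by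
  rw [← Finset.prod_mul_distrib]
  exact Finset.prod_eq_one fun s _ => uu_mul_self s

theorem norm_prod_uu_le (T : Finset (WithTop Λ)) : ‖∏ s ∈ T, uu s‖ ≤ 1 := by
  induction T using Finset.induction_on with
  | empty =>
    rw [Finset.prod_empty, ← ee_top]
    exact norm_ee_le _
  | insert s T hs ih =>
    rw [Finset.prod_insert hs]
    exact (norm_mul_le _ _).trans (mul_le_one₀ (norm_uu_le s) (norm_nonneg _) ih)

theorem sum_powerset_uu {V : Type*} [AddCommMonoid V] (Ψ : C(Om Λ, ℂ) → V)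
    {F : Finset (WithTop Λ)} {s : WithTop Λ} (hs : s ∈ F) :
    ∑ T ∈ F.powerset, Ψ (uu s * ∏ t ∈ T, uu t) = ∑ T ∈ F.powerset, Ψ (∏ t ∈ T, uu t) := by
  rw [← Finset.insert_erase hs, Finset.sum_powerset_insert (Finset.notMem_erase s F),
    Finset.sum_powerset_insert (Finset.notMem_erase s F), add_comm]
  have hT : ∀ T ∈ (F.erase s).powerset, s ∉ T := fun T hT h =>
    Finset.notMem_erase s F (Finset.mem_powerset.1 hT h)
  congr 1
  · refine Finset.sum_congr rfl fun T h => ?_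
    rw [Finset.prod_insert (hT T h), ← mul_assoc, uu_mul_self, one_mul]
  · refine Finset.sum_congr rfl fun T h => ?_
    rw [Finset.prod_insert (hT T h)]

/-- bimodule structure by continuous bilinear maps -/
structure BimoduleL (A : Type*) [NonUnitalNormedRing A] [NormedSpace ℂ A]
    (X : Type*) [NormedAddCommGroup X] [NormedSpace ℂ X] where
  /-- the left action -/
  l : A →L[ℂ] X →L[ℂ] X
  /-- the right action -/
  r : A →L[ℂ] X →L[ℂ] X
  l_mul : ∀ a b x, l (a * b) x = l a (l b x)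
  r_mul : ∀ a b x, r (a * b) x = r b (r a x)
  l_r : ∀ a b x, l a (r b x) = r b (l a x)

/-- conversion -/
noncomputable def Bimodule.toL {A : Type*} [NonUnitalNormedRing A] [NormedSpace ℂ A]
    {X : Type*} [NormedAddCommGroup X] [NormedSpace ℂ X] (M : Bimodule A X) :
    BimoduleL A X where
  l := M.l_bdd.toContinuousLinearMap
  r := M.r_bdd.symm.toContinuousLinearMap
  l_mul := M.l_mul
  r_mul := M.r_mul
  l_r := M.l_r

theorem exists_finite {Y : Type*} [NormedAddCommGroup Y] [NormedSpace ℂ Y]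
    (N : BimoduleL C(Om Λ, ℂ) Y) (D : C(Om Λ, ℂ) →L[ℂ] Y)
    (hD : ∀ a b, D (a * b) = N.l a (D b) + N.r b (D a)) (F : Finset (WithTop Λ)) :
    ∃ ψ : Y, ‖ψ‖ ≤ ‖D 1 - N.r 1 (D 1)‖ + ‖N.r‖ * ‖D‖ ∧
      ∀ s ∈ F, D (ee s) = N.l (ee s) ψ - N.r (ee s) ψ := by
  let Ψ : C(Om Λ, ℂ) → Y := fun g => N.r g (D g)
  let c : ℂ := ((2 : ℂ) ^ F.card)⁻¹
  have hc : c * (2 : ℂ) ^ F.card = 1 := inv_mul_cancel₀ (pow_ne_zero _ two_ne_zero)
  let φ : Y := c • ∑ T ∈ F.powerset, Ψ (∏ t ∈ T, uu t)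
  let η : Y := D 1 - N.r 1 (D 1)
  have hφ1 : N.r 1 φ = φ := by
    simp only [φ, map_smul, map_sum, Ψ, ← N.r_mul, mul_one]
  have key : ∀ h : C(Om Λ, ℂ), h * h = 1 →
      ∑ T ∈ F.powerset, Ψ (h * ∏ t ∈ T, uu t) = ∑ T ∈ F.powerset, Ψ (∏ t ∈ T, uu t) →
      D h = N.l h (η - φ) - N.r h (η - φ) := by
    intro h hh hinv
    have e1 : ∀ g : C(Om Λ, ℂ), g * g = 1 →
        Ψ (h * g) = N.r h (N.l h (Ψ g)) + N.r h (D h) := by
      intro g hg
      simp only [Ψ]
      rw [hD, map_add, ← N.r_mul g (h * g), mul_comm h g, N.r_mul, ← N.l_r, ← mul_assoc, hg,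
        one_mul]
    have e2 : φ = N.r h (N.l h φ) + N.r h (D h) := by
      conv_lhs => simp only [φ]
      rw [← hinv, Finset.sum_congr rfl fun T _ => e1 _ (prod_uu_mul_self T),
        Finset.sum_add_distrib, smul_add, Finset.sum_const, Finset.card_powerset,
        ← Nat.cast_smul_eq_nsmul ℂ, smul_smul]
      push_cast
      rw [hc, one_smul]
      simp only [φ, map_smul, map_sum]
    have e3 : N.r h φ = N.l h φ + N.r 1 (D h) := by
      conv_lhs => rw [e2]
      rw [map_add, ← N.r_mul, ← N.r_mul, hh, ← N.l_r, hφ1]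
    have e4 : D h = N.l h (D 1) + N.r 1 (D h) := by
      conv_lhs => rw [← mul_one h, hD]
    have e5 : η = N.l 1 (D 1) := by
      have := hD 1 1
      rw [mul_one] at this
      simp only [η]
      exact sub_eq_of_eq_add this
    have e6 : N.l h η = N.l h (D 1) := by rw [e5, ← N.l_mul, mul_one]
    have e7 : N.r h η = 0 := by
      simp only [η]
      rw [map_sub, ← N.r_mul, one_mul, sub_self]
    rw [map_sub (N.l h) η, map_sub (N.r h) η, e6, e7, e3]
    conv_lhs => rw [e4]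
    abel
  refine ⟨η - φ, (norm_sub_le _ _).trans (add_le_add le_rfl ?_), fun s hs => ?_⟩
  · have hΨ : ∀ T : Finset (WithTop Λ), ‖Ψ (∏ t ∈ T, uu t)‖ ≤ ‖N.r‖ * ‖D‖ := fun T => by
      refine (N.r.le_opNorm₂ _ _).trans (mul_le_mul ?_ ?_ (norm_nonneg _) (norm_nonneg _))
      · exact mul_le_of_le_one_right (norm_nonneg _) (norm_prod_uu_le T)
      · exact (D.le_opNorm _).trans (mul_le_of_le_one_right (norm_nonneg _) (norm_prod_uu_le T))
    simp only [φ, c]
    rw [norm_smul, norm_inv, norm_pow, Complex.norm_ofNat, inv_mul_le_iff₀ (by positivity)]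
    refine (norm_sum_le _ _).trans ((Finset.sum_le_sum fun T _ => hΨ T).trans ?_)
    simp
  · have h1 := key 1 (mul_one 1) (by simp only [one_mul])
    have h2 := key (uu s) (uu_mul_self s) (sum_powerset_uu Ψ hs)
    have e : ee s = (2 : ℂ)⁻¹ • (1 - uu s) := by
      simp [uu, smul_smul]
    rw [e]
    simp only [map_smul, map_sub D, map_sub N.l, map_sub N.r, smul_apply, sub_apply]
    rw [h1, h2, ← smul_sub]
    congr 1
    abel

/-- The dual bimodule `X*`: `(a · φ)(x) = φ(x · a)` and `(φ · a)(x) = φ(a · x)`. -/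
noncomputable def BimoduleL.dual {A : Type*} [NonUnitalNormedRing A] [NormedSpace ℂ A]
    {X : Type*} [NormedAddCommGroup X] [NormedSpace ℂ X] (M : BimoduleL A X) :
    BimoduleL A (X →L[ℂ] ℂ) where
  l := (ContinuousLinearMap.compL ℂ X X ℂ).flip.comp M.r
  r := (ContinuousLinearMap.compL ℂ X X ℂ).flip.comp M.l
  l_mul a b φ := by ext x; simp [M.r_mul]
  r_mul a b φ := by ext x; simp [M.l_mul]
  l_r a b φ := by ext x; simp [M.l_r]

theorem amenable : IsAmenable.{0, v} C(Om Λ, ℂ) := by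
  intro X _ _ _ M₀ D₀ hD₀ hf
  let M := M₀.toL
  let D : C(Om Λ, ℂ) →L[ℂ] X →L[ℂ] ℂ := hD₀.toContinuousLinearMap
  have hD : ∀ a b, D (a * b) = M.dual.l a (D b) + M.dual.r b (D a) := fun a b => by
    ext x
    exact hf a b x
  let C : ℝ := ‖D 1 - M.dual.r 1 (D 1)‖ + ‖M.dual.r‖ * ‖D‖
  let K : WithTop Λ → Set (WeakDual ℂ X) := fun s =>
    {ψ | ∀ x, D (ee s) x = ψ (M.r (ee s) x) - ψ (M.l (ee s) x)}
  have hK : ∀ s, IsClosed (K s) := fun s => by
    simp only [K, ofPred_forall]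
    exact isClosed_iInter fun x => isClosed_eq continuous_const
      ((WeakDual.eval_continuous _).sub (WeakDual.eval_continuous _))
  obtain ⟨ψ, -, hψ⟩ := (WeakDual.isCompact_closedBall (𝕜 := ℂ) (E := X) 0 C).inter_iInter_nonempty
    K hK fun F => by
      obtain ⟨ψ, h1, h2⟩ := exists_finite M.dual D hD F
      refine ⟨StrongDual.toWeakDual ψ, by simpa using h1, ?_⟩
      simp only [mem_iInter]
      intro s hs x
      rw [h2 s hs]
      rfl
  let ψ' : X →L[ℂ] ℂ := WeakDual.toStrongDual ψ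
  let E : C(Om Λ, ℂ) →L[ℂ] (X →L[ℂ] ℂ) := D - (M.dual.l.flip ψ' - M.dual.r.flip ψ')
  have htop := eq_top_of_closed E.ker E.isClosed_ker fun s => by
    rw [LinearMap.mem_ker]
    ext x
    have := mem_iInter.1 hψ s x
    change D (ee s) x - (ψ (M.r (ee s) x) - ψ (M.l (ee s) x)) = 0
    rw [this, sub_self]
  refine ⟨ψ', ψ'.isBoundedLinearMap, fun a x => ?_⟩
  have ha : a ∈ E.ker := htop ▸ Submodule.mem_top
  rw [LinearMap.mem_ker] at ha
  have ha' : D a = M.dual.l a ψ' - M.dual.r a ψ' := sub_eq_zero.1 ha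
  exact DFunLike.congr_fun ha' x

end Pool.Agent.Work.MP_92c8f1_an
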