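import Mathlib.Analysis.Normed.Module.Multilinear.Curry
import Mathlib.Analysis.Normed.Operator.NormedSpace
import Mathlib.Analysis.Complex.Basic

/-!
The Hochschild coboundary with coefficients twisted by a character on both sides.
-/

namespace Pool.Agent.Work.MP_92c8f1_an

open Fin

section Fun

variable {A : Type*} [CommMonoid A] (χ : A → ℂ) {V : Type*} [AddCommGroup V] [Module ℂ V]

/-- coboundary without the last term -/
noncomputable def cobL {n : ℕ} (f : (Fin n → A) → V) (a : Fin (n + 1) → A) : V :=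
  χ (a 0) • f (fun i => a i.succ)
    + ∑ i : Fin n, (-1 : ℂ) ^ ((i : ℕ) + 1) • f (Fin.contractNth i.castSucc (· * ·) a)

/-- coboundary -/
noncomputable def cob {n : ℕ} (f : (Fin n → A) → V) (a : Fin (n + 1) → A) : V :=
  cobL χ f a + (-1 : ℂ) ^ (n + 1) • χ (a (Fin.last n)) • f (fun i => a i.castSucc)

theorem contract_snoc_castSucc {n : ℕ} (a : Fin (n + 1) → A) (b : A) (i : Fin n) :
    Fin.contractNth i.castSucc.castSucc (· * ·) (Fin.snoc a b : Fin (n + 2) → A)
      = Fin.snoc (Fin.contractNth i.castSucc (· * ·) a) b := by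
  funext k
  refine Fin.lastCases ?_ (fun k => ?_) k
  · rw [Fin.contractNth_apply_of_gt _ _ _ _ (by simp)]
    simp [Fin.succ_last]
  · simp only [Fin.snoc_castSucc]
    rcases lt_trichotomy (k : ℕ) i with h | h | h
    · rw [Fin.contractNth_apply_of_lt _ _ _ _ (by simpa using h),
        Fin.contractNth_apply_of_lt _ _ _ _ (by simpa using h)]
      simp
    · rw [Fin.contractNth_apply_of_eq _ _ _ _ (by simpa using h),
        Fin.contractNth_apply_of_eq _ _ _ _ (by simpa using h), Fin.succ_castSucc,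
        Fin.snoc_castSucc, Fin.snoc_castSucc]
    · rw [Fin.contractNth_apply_of_gt _ _ _ _ (by simpa using h),
        Fin.contractNth_apply_of_gt _ _ _ _ (by simpa using h), Fin.succ_castSucc,
        Fin.snoc_castSucc]

theorem contract_snoc_last {n : ℕ} (c : Fin n → A) (x b : A) :
    Fin.contractNth (Fin.last n).castSucc (· * ·)
        (Fin.snoc (Fin.snoc c x : Fin (n + 1) → A) b : Fin (n + 2) → A)
      = Fin.snoc c (x * b) := by
  funext k
  refine Fin.lastCases ?_ (fun k => ?_) k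
  · rw [Fin.contractNth_apply_of_eq _ _ _ _ (by simp)]
    simp [Fin.succ_last]
  · rw [Fin.contractNth_apply_of_lt _ _ _ _ (by simp)]
    simp

omit [CommMonoid A] in
theorem tail_snoc {n : ℕ} (a : Fin (n + 1) → A) (b : A) :
    (fun i : Fin (n + 1) => (Fin.snoc a b : Fin (n + 2) → A) i.succ)
      = Fin.snoc (fun i : Fin n => a i.succ) b := by
  funext k
  refine Fin.lastCases ?_ (fun k => ?_) k
  · simp [Fin.succ_last]
  · rw [Fin.succ_castSucc, Fin.snoc_castSucc, Fin.snoc_castSucc]

theorem cobL_snoc {n : ℕ} (f : (Fin (n + 1) → A) → V) (c : Fin n → A) (x b : A) :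
    cobL χ f (Fin.snoc (Fin.snoc c x : Fin (n + 1) → A) b)
      = cobL χ (fun c' : Fin n → A => f (Fin.snoc c' b)) (Fin.snoc c x)
        + (-1 : ℂ) ^ (n + 1) • f (Fin.snoc c (x * b)) := by
  unfold cobL
  rw [Fin.sum_univ_castSucc, tail_snoc, contract_snoc_last]
  simp only [contract_snoc_castSucc, Fin.val_castSucc, Fin.val_last]
  have : (Fin.snoc (Fin.snoc c x : Fin (n + 1) → A) b : Fin (n + 2) → A) 0
      = (Fin.snoc c x : Fin (n + 1) → A) 0 := by
    rw [← Fin.castSucc_zero, Fin.snoc_castSucc]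
  rw [this]
  abel

theorem cobL_add {n : ℕ} (f g : (Fin n → A) → V) (a : Fin (n + 1) → A) :
    cobL χ (fun c => f c + g c) a = cobL χ f a + cobL χ g a := by
  unfold cobL
  simp only [smul_add, Finset.sum_add_distrib]
  abel

theorem cobL_smul {n : ℕ} (s : ℂ) (f : (Fin n → A) → V) (a : Fin (n + 1) → A) :
    cobL χ (fun c => s • f c) a = s • cobL χ f a := by
  unfold cobL
  simp only [smul_add, Finset.smul_sum, smul_comm s]

theorem cobL_map {W : Type*} [AddCommGroup W] [Module ℂ W] (T : V →ₗ[ℂ] W) {n : ℕ}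
    (f : (Fin n → A) → V) (a : Fin (n + 1) → A) :
    cobL χ (fun c => T (f c)) a = T (cobL χ f a) := by
  unfold cobL
  simp only [map_add, map_sum, map_smul]

theorem cob_map {W : Type*} [AddCommGroup W] [Module ℂ W] (T : V →ₗ[ℂ] W) {n : ℕ}
    (f : (Fin n → A) → V) (a : Fin (n + 1) → A) :
    cob χ (fun c => T (f c)) a = T (cob χ f a) := by
  unfold cob
  simp only [map_add, map_smul, cobL_map]

theorem cob_add {n : ℕ} (f g : (Fin n → A) → V) (a : Fin (n + 1) → A) :
    cob χ (fun c => f c + g c) a = cob χ f a + cob χ g a := by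
  unfold cob
  simp only [smul_add, cobL_add]
  abel

theorem cob_smul {n : ℕ} (s : ℂ) (f : (Fin n → A) → V) (a : Fin (n + 1) → A) :
    cob χ (fun c => s • f c) a = s • cob χ f a := by
  unfold cob
  simp only [smul_add, cobL_smul, smul_comm s]

theorem cob_sub {n : ℕ} (f g : (Fin n → A) → V) (a : Fin (n + 1) → A) :
    cob χ (fun c => f c - g c) a = cob χ f a - cob χ g a := by
  have h : (fun c => f c - g c) = fun c => f c + (-1 : ℂ) • g c := by
    funext c; simp [sub_eq_add_neg]
  rw [h, cob_add, cob_smul]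
  simp [sub_eq_add_neg]

variable {χ}

omit [CommMonoid A] in
theorem exists_snoc_snoc {n : ℕ} (a : Fin (n + 2) → A) :
    ∃ (c : Fin n → A) (x b : A), a = Fin.snoc (Fin.snoc c x : Fin (n + 1) → A) b :=
  ⟨Fin.init (Fin.init a), Fin.init a (Fin.last n), a (Fin.last (n + 1)), by
    rw [Fin.snoc_init_self, Fin.snoc_init_self]⟩

theorem cobL_cobL (hχ : ∀ a b, χ (a * b) = χ a * χ b) :
    ∀ {n : ℕ} (f : (Fin n → A) → V) (a : Fin (n + 2) → A), cobL χ (cobL χ f) a = 0 := by
  intro n
  induction n with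
  | zero =>
    intro f a
    simp [cobL, Fin.contractNth, hχ, smul_smul, Subsingleton.elim (α := Fin 0 → A) _ default]
  | succ n ih =>
    intro f a
    obtain ⟨c', y, b, rfl⟩ := exists_snoc_snoc a
    obtain ⟨c, x, rfl⟩ : ∃ (c : Fin n → A) (x : A), c' = Fin.snoc c x :=
      ⟨Fin.init c', c' (Fin.last n), (Fin.snoc_init_self c').symm⟩
    rw [cobL_snoc]
    have h1 : (fun c'' : Fin (n + 1) → A => cobL χ f (Fin.snoc c'' b))
        = fun c'' => cobL χ (fun c' : Fin n → A => f (Fin.snoc c' b)) c''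
          + (-1 : ℂ) ^ (n + 1) • f (Fin.snoc (Fin.init c'') (c'' (Fin.last n) * b)) := by
      funext c''
      conv_lhs => rw [← Fin.snoc_init_self c'']
      rw [cobL_snoc, Fin.snoc_init_self]
    rw [h1, cobL_add, cobL_smul, ih, cobL_snoc, cobL_snoc]
    simp only [Fin.init_snoc, Fin.snoc_last, zero_add, smul_add, smul_smul, mul_assoc]
    rw [pow_succ (-1 : ℂ) (n + 1)]
    simp only [mul_neg, mul_one, neg_smul, neg_mul]
    abel

theorem cob_cob (hχ : ∀ a b, χ (a * b) = χ a * χ b) {n : ℕ} (f : (Fin n → A) → V)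
    (a : Fin (n + 2) → A) : cob χ (cob χ f) a = 0 := by
  obtain ⟨c, x, b, rfl⟩ := exists_snoc_snoc a
  have h1 : cob χ f = fun a' => cobL χ f a'
      + (-1 : ℂ) ^ (n + 1) • χ (a' (Fin.last n)) • f (fun i => a' i.castSucc) := rfl
  rw [cob, h1, cobL_add, cobL_cobL hχ, cobL_smul, cobL_snoc]
  simp only [Fin.snoc_last, Fin.snoc_castSucc]
  rw [cobL_smul]
  simp only [zero_add, smul_add, smul_smul, hχ]
  rw [pow_succ (-1 : ℂ) (n + 1)]
  simp only [mul_neg, mul_one, neg_smul, neg_mul]
  rw [mul_comm (χ x) (χ b), mul_left_comm (χ b)]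
  abel

/-- fixing the last variable at an element which acts as an identity on the previous one -/
theorem cob_snoc {n : ℕ} (f : (Fin (n + 1) → A) → V) (a : Fin (n + 1) → A) (b : A)
    (hab : a (Fin.last n) * b = a (Fin.last n)) (ha : χ (a (Fin.last n)) = 0) (hb : χ b = 0) :
    cob χ f (Fin.snoc a b)
      = cob χ (fun c' : Fin n → A => f (Fin.snoc c' b)) a + (-1 : ℂ) ^ (n + 1) • f a := by
  obtain ⟨c, x, rfl⟩ : ∃ (c : Fin n → A) (x : A), a = Fin.snoc c x :=
    ⟨Fin.init a, a (Fin.last n), (Fin.snoc_init_self a).symm⟩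
  simp only [Fin.snoc_last] at hab ha
  unfold cob
  rw [cobL_snoc, hab]
  simp [ha, hb]

end Fun

end Pool.Agent.Work.MP_92c8f1_an
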