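import Pool.Agent.Work.MP_92c8f1_an.Cob

/-!
The coboundary as a continuous linear map on scalar cochains, its transpose, and the
universal multilinear map.
-/

namespace Pool.Agent.Work.MP_92c8f1_an

open Fin Function

variable {A : Type*} [NormedCommRing A] [NormedAlgebra ℂ A]

/-- scalar cochains -/
abbrev Co (A : Type*) [NormedCommRing A] [NormedAlgebra ℂ A] (m : ℕ) :=
  ContinuousMultilinearMap ℂ (fun _ : Fin m => A) ℂ

/-- the ambient space of chains: the dual of the scalar cochains -/
abbrev Ch (A : Type*) [NormedCommRing A] [NormedAlgebra ℂ A] (m : ℕ) := Co A m →L[ℂ] ℂ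

omit [NormedAlgebra ℂ A] in
theorem contract_update {n : ℕ} (j : Fin n) (a : Fin (n + 1) → A) (k : Fin (n + 1)) :
    ∃ (k' : Fin n) (u : A), ∀ x, Fin.contractNth j.castSucc (· * ·) (update a k x)
      = update (Fin.contractNth j.castSucc (· * ·) a) k' (u * x) := by
  rcases lt_trichotomy (k : ℕ) j with h | h | h
  · refine ⟨⟨k, by omega⟩, 1, fun x => ?_⟩
    funext i
    simp only [Fin.contractNth, update_apply, Fin.ext_iff, Fin.val_castSucc, Fin.val_succ]
    split_ifs <;> first | rfl | omega | simp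
  · refine ⟨j, a j.succ, fun x => ?_⟩
    funext i
    simp only [Fin.contractNth, update_apply, Fin.ext_iff, Fin.val_castSucc, Fin.val_succ]
    split_ifs with h1 h2 h3 h4 h5 h6 h7 <;> try first | rfl | omega
    have : i = j := Fin.ext (by omega)
    subst this
    rw [mul_comm]
  · rcases Nat.lt_or_ge (j + 1 : ℕ) k with h' | h'
    · refine ⟨⟨k - 1, by omega⟩, 1, fun x => ?_⟩
      funext i
      simp only [Fin.contractNth, update_apply, Fin.ext_iff, Fin.val_castSucc, Fin.val_succ]
      split_ifs <;> first | rfl | omega | simp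
    · refine ⟨j, a j.castSucc, fun x => ?_⟩
      funext i
      simp only [Fin.contractNth, update_apply, Fin.ext_iff, Fin.val_castSucc, Fin.val_succ]
      split_ifs with h1 h2 h3 h4 h5 h6 h7 <;> try first | rfl | omega
      have : i = j := Fin.ext (by omega)
      subst this
      rfl

omit [NormedAlgebra ℂ A] in
theorem prod_norm_contract : ∀ {n : ℕ} (j : Fin n) (a : Fin (n + 1) → A),
    ∏ k, ‖Fin.contractNth j.castSucc (· * ·) a k‖ ≤ ∏ k, ‖a k‖ := by
  intro n
  induction n with
  | zero => intro j; exact j.elim0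
  | succ n ih =>
    intro j a
    obtain ⟨c, x, b, rfl⟩ := exists_snoc_snoc a
    refine Fin.lastCases ?_ (fun j => ?_) j
    · rw [contract_snoc_last]
      simp only [Fin.prod_univ_castSucc, Fin.snoc_castSucc, Fin.snoc_last, mul_assoc]
      exact mul_le_mul_of_nonneg_left (norm_mul_le _ _)
        (Finset.prod_nonneg fun _ _ => norm_nonneg _)
    · rw [contract_snoc_castSucc, Fin.prod_univ_castSucc, Fin.prod_univ_castSucc (n := n + 1)]
      simp only [Fin.snoc_castSucc, Fin.snoc_last]
      exact mul_le_mul_of_nonneg_right (ih _ _) (norm_nonneg _)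

/-- contraction of two neighbouring variables, as a multilinear map -/
noncomputable def contrMl {n : ℕ} (j : Fin n) (φ : Co A n) :
    MultilinearMap ℂ (fun _ : Fin (n + 1) => A) ℂ where
  toFun a := φ (Fin.contractNth j.castSucc (· * ·) a)
  map_update_add' := by
    intro inst a k x y
    obtain rfl : inst = instDecidableEqFin _ := Subsingleton.elim _ _
    obtain ⟨k', u, h⟩ := contract_update j a k
    rw [h, h, h, mul_add, φ.map_update_add]
  map_update_smul' := by
    intro inst a k c x
    obtain rfl : inst = instDecidableEqFin _ := Subsingleton.elim _ _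
    obtain ⟨k', u, h⟩ := contract_update j a k
    rw [h, h, mul_smul_comm, φ.map_update_smul]

theorem contrMl_bound {n : ℕ} (j : Fin n) (φ : Co A n) (a : Fin (n + 1) → A) :
    ‖contrMl j φ a‖ ≤ ‖φ‖ * ∏ k, ‖a k‖ :=
  (φ.le_opNorm _).trans (mul_le_mul_of_nonneg_left (prod_norm_contract j a) (norm_nonneg _))

/-- contraction as a continuous linear map on cochains -/
noncomputable def contr {n : ℕ} (j : Fin n) : Co A n →L[ℂ] Co A (n + 1) :=
  LinearMap.mkContinuous
    { toFun := fun φ => (contrMl j φ).mkContinuous ‖φ‖ (contrMl_bound j φ)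
      map_add' := fun φ ψ => by ext a; rfl
      map_smul' := fun c φ => by ext a; rfl } 1
    fun φ => by
      rw [one_mul]
      exact MultilinearMap.mkContinuous_norm_le _ (norm_nonneg _) (contrMl_bound j φ)

@[simp] theorem contr_apply {n : ℕ} (j : Fin n) (φ : Co A n) (a : Fin (n + 1) → A) :
    contr j φ a = φ (Fin.contractNth j.castSucc (· * ·) a) := rfl

/-- first face -/
noncomputable def faceL (χ : A →L[ℂ] ℂ) (n : ℕ) : Co A n →L[ℂ] Co A (n + 1) :=
  LinearMap.mkContinuous
    { toFun := fun φ => ContinuousLinearMap.uncurryLeft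
        (Ei := fun _ : Fin (n + 1) => A) (χ.smulRight φ)
      map_add' := fun φ ψ => by ext a; simp
      map_smul' := fun c φ => by ext a; simp [mul_left_comm] } ‖χ‖
    fun φ => by
      simp only [LinearMap.coe_mk, AddHom.coe_mk, ContinuousLinearMap.uncurryLeft_norm]
      exact (ContinuousLinearMap.norm_smulRight_apply χ φ).le

@[simp] theorem faceL_apply (χ : A →L[ℂ] ℂ) {n : ℕ} (φ : Co A n) (a : Fin (n + 1) → A) :
    faceL χ n φ a = χ (a 0) • φ (fun i => a i.succ) := rfl

/-- last face -/
noncomputable def faceR (χ : A →L[ℂ] ℂ) (n : ℕ) : Co A n →L[ℂ] Co A (n + 1) :=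
  LinearMap.mkContinuous
    { toFun := fun φ => ContinuousMultilinearMap.uncurryRight
        (Ei := fun _ : Fin (n + 1) => A) (φ.smulRight χ)
      map_add' := fun φ ψ => by ext a; simp [add_mul]
      map_smul' := fun c φ => by ext a; simp [mul_assoc] } ‖χ‖
    fun φ => by
      simp only [LinearMap.coe_mk, AddHom.coe_mk, ContinuousMultilinearMap.uncurryRight_norm]
      rw [ContinuousMultilinearMap.norm_smulRight, mul_comm]

@[simp] theorem faceR_apply (χ : A →L[ℂ] ℂ) {n : ℕ} (φ : Co A n) (a : Fin (n + 1) → A) :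
    faceR χ n φ a = χ (a (Fin.last n)) • φ (fun i => a i.castSucc) := by
  change φ (fun i => a i.castSucc) • χ (a (Fin.last n)) = _
  simp [mul_comm]

/-- the coboundary on scalar cochains -/
noncomputable def delta (χ : A →L[ℂ] ℂ) (n : ℕ) : Co A n →L[ℂ] Co A (n + 1) :=
  faceL χ n + ∑ i : Fin n, (-1 : ℂ) ^ ((i : ℕ) + 1) • contr i + (-1 : ℂ) ^ (n + 1) • faceR χ n

theorem delta_apply (χ : A →L[ℂ] ℂ) {n : ℕ} (φ : Co A n) (a : Fin (n + 1) → A) :
    delta χ n φ a = cob χ φ a := by
  simp [delta, cob, cobL]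

/-- the boundary on chains -/
noncomputable def bd (χ : A →L[ℂ] ℂ) (n : ℕ) : Ch A (n + 1) →L[ℂ] Ch A n :=
  (ContinuousLinearMap.compL ℂ (Co A n) (Co A (n + 1)) ℂ).flip (delta χ n)

@[simp] theorem bd_apply (χ : A →L[ℂ] ℂ) {n : ℕ} (y : Ch A (n + 1)) (φ : Co A n) :
    bd χ n y φ = y (delta χ n φ) := rfl

/-- the universal multilinear map -/
noncomputable def iota (A : Type*) [NormedCommRing A] [NormedAlgebra ℂ A] (m : ℕ) :
    ContinuousMultilinearMap ℂ (fun _ : Fin m => A) (Ch A m) :=
  (ContinuousLinearMap.id ℂ (Co A m)).flipMultilinear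

@[simp] theorem iota_apply {m : ℕ} (a : Fin m → A) (φ : Co A m) : iota A m a φ = φ a := rfl

theorem bd_iota (χ : A →L[ℂ] ℂ) {n : ℕ} (a : Fin (n + 1) → A) :
    bd χ n (iota A (n + 1) a) = cob χ (iota A n) a := by
  ext φ
  rw [bd_apply, iota_apply, delta_apply]
  exact cob_map χ (ContinuousLinearMap.apply ℂ ℂ φ : Ch A n →L[ℂ] ℂ).toLinearMap (iota A n) a

theorem bd_bd {χ : A →L[ℂ] ℂ} (hχ : ∀ a b, χ (a * b) = χ a * χ b) {n : ℕ} (y : Ch A (n + 2)) :
    bd χ n (bd χ (n + 1) y) = 0 := by
  ext φ
  have : delta χ (n + 1) (delta χ n φ) = 0 := by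
    ext a
    rw [delta_apply]
    have : (delta χ n φ : (Fin (n + 1) → A) → ℂ) = cob χ φ := funext (delta_apply χ φ)
    rw [this, cob_cob hχ]
    rfl
  simp [this]

/-- the map induced on chains by a continuous linear map -/
noncomputable def chMap (R : A →L[ℂ] A) (m : ℕ) : Ch A m →L[ℂ] Ch A m :=
  (ContinuousLinearMap.compL ℂ (Co A m) (Co A m) ℂ).flip
    (ContinuousMultilinearMap.compContinuousLinearMapL fun _ : Fin m => R)

theorem chMap_iota (R : A →L[ℂ] A) {m : ℕ} (a : Fin m → A) :
    chMap R m (iota A m a) = iota A m (fun i => R (a i)) := by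
  ext φ
  rfl

end Pool.Agent.Work.MP_92c8f1_an
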