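import Mathlib.Analysis.Complex.Basic
import Mathlib.Algebra.BigOperators.Intervals
import Mathlib.Tactic

/-!
A dyadic test form showing that the triangular matrix is not uniformly bounded in the
projective tensor norm.
-/

namespace Pool.Agent.Work.MP_92c8f1_an

open Finset

section
variable {V : Type*} [AddCommGroup V] [Module ℂ V]

/-- the mean of a square block -/
noncomputable def blockMean (n : ℕ) (F : ℕ → ℕ → V) : V :=
  ((2 : ℂ) ^ n)⁻¹ • ((2 : ℂ) ^ n)⁻¹ • ∑ i ∈ range (2 ^ n), ∑ j ∈ range (2 ^ n), F i j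

/-- the dyadic test functional -/
noncomputable def testF : ℕ → (ℕ → ℕ → V) → V
  | 0, _ => 0
  | n + 1, F => (2 : ℂ)⁻¹ • (testF n F + testF n fun i j => F (i + 2 ^ n) (j + 2 ^ n))
      + (blockMean n (fun i j => F (i + 2 ^ n) j) - blockMean n fun i j => F i (j + 2 ^ n))

theorem testF_map {W : Type*} [AddCommGroup W] [Module ℂ W] (T : V →ₗ[ℂ] W) :
    ∀ (n : ℕ) (F : ℕ → ℕ → V), T (testF n F) = testF n fun i j => T (F i j) := by
  intro n
  induction n with
  | zero => intro F; simp [testF]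
  | succ n ih => intro F; simp [testF, ih, blockMean]

theorem blockMean_congr {n : ℕ} {F G : ℕ → ℕ → V}
    (h : ∀ i < 2 ^ n, ∀ j < 2 ^ n, F i j = G i j) : blockMean n F = blockMean n G := by
  unfold blockMean
  rw [sum_congr rfl fun i hi => sum_congr rfl fun j hj => h i (mem_range.1 hi) j (mem_range.1 hj)]

theorem testF_congr : ∀ (n : ℕ) (F G : ℕ → ℕ → V),
    (∀ i < 2 ^ n, ∀ j < 2 ^ n, F i j = G i j) → testF n F = testF n G := by
  intro n
  induction n with
  | zero => intro F G _; rfl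
  | succ n ih =>
    intro F G h
    have e : 2 ^ (n + 1) = 2 ^ n + 2 ^ n := by ring
    simp only [testF]
    rw [ih F G fun i hi j hj => h i (by omega) j (by omega),
      ih (fun i j => F (i + 2 ^ n) (j + 2 ^ n)) (fun i j => G (i + 2 ^ n) (j + 2 ^ n))
        fun i hi j hj => h _ (by omega) _ (by omega),
      blockMean_congr (F := fun i j => F (i + 2 ^ n) j) (G := fun i j => G (i + 2 ^ n) j)
        fun i hi j hj => h _ (by omega) _ (by omega),
      blockMean_congr (F := fun i j => F i (j + 2 ^ n)) (G := fun i j => G i (j + 2 ^ n))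
        fun i hi j hj => h _ (by omega) _ (by omega)]

end

theorem testF_tri (n : ℕ) : testF n (fun i j => if j ≤ i then (1 : ℂ) else 0) = n := by
  induction n with
  | zero => simp [testF]
  | succ n ih =>
    simp only [testF, add_le_add_iff_right, ih]
    rw [blockMean_congr (G := fun _ _ => (1 : ℂ)) (fun i hi j hj => if_pos (by omega)),
      blockMean_congr (F := fun i j => if j + 2 ^ n ≤ i then (1 : ℂ) else 0)
        (G := fun _ _ => (0 : ℂ)) (fun i hi j hj => if_neg (by omega))]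
    have : (2 : ℂ) ^ n ≠ 0 := pow_ne_zero _ two_ne_zero
    simp [blockMean]
    field_simp
    ring

/-- mean of a sequence -/
noncomputable def seqMean (n : ℕ) (a : ℕ → ℂ) : ℂ := ((2 : ℂ) ^ n)⁻¹ * ∑ i ∈ range (2 ^ n), a i

theorem blockMean_mul (n : ℕ) (a b : ℕ → ℂ) :
    blockMean n (fun i j => a i * b j) = seqMean n a * seqMean n b := by
  simp only [blockMean, seqMean, smul_eq_mul, ← mul_sum, ← sum_mul]
  ring

theorem seqMean_succ (n : ℕ) (a : ℕ → ℂ) :
    seqMean (n + 1) a = (seqMean n a + seqMean n fun i => a (i + 2 ^ n)) / 2 := by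
  have e : 2 ^ (n + 1) = 2 ^ n + 2 ^ n := by ring
  have : (2 : ℂ) ^ n ≠ 0 := pow_ne_zero _ two_ne_zero
  simp only [seqMean]
  rw [e, sum_range_add]
  simp only [add_comm (2 ^ n)]
  field_simp
  ring

theorem norm_seqMean_le (n : ℕ) {a : ℕ → ℂ} (ha : ∀ i, ‖a i‖ ≤ 1) : ‖seqMean n a‖ ≤ 1 := by
  unfold seqMean
  rw [norm_mul, norm_inv, norm_pow, Complex.norm_ofNat]
  have h : ‖∑ i ∈ range (2 ^ n), a i‖ ≤ 2 ^ n := by
    refine (norm_sum_le _ _).trans ((sum_le_sum fun i _ => ha i).trans ?_)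
    simp
  rw [inv_mul_le_iff₀ (by positivity)]
  simpa using h

theorem par_law (u v : ℂ) : ‖u‖ ^ 2 + ‖v‖ ^ 2 = 2 * (‖(u + v) / 2‖ ^ 2 + ‖(v - u) / 2‖ ^ 2) := by
  simp only [Complex.sq_norm, Complex.normSq_apply, Complex.div_ofNat_re, Complex.div_ofNat_im,
    Complex.add_re, Complex.add_im, Complex.sub_re, Complex.sub_im]
  ring

theorem norm_testF_le {l : ℝ} (hl : 0 < l) : ∀ (n : ℕ) (a b : ℕ → ℂ), (∀ i, ‖a i‖ ≤ 1) →
    (∀ i, ‖b i‖ ≤ 1) → ‖testF n (fun i j => a i * b j)‖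
      ≤ 2 * l * n + (2 - ‖seqMean n a‖ ^ 2 - ‖seqMean n b‖ ^ 2) / l := by
  intro n
  induction n with
  | zero =>
    intro a b ha hb
    have h1 := norm_seqMean_le 0 ha
    have h2 := norm_seqMean_le 0 hb
    have h3 : ‖seqMean 0 a‖ ^ 2 ≤ 1 := by nlinarith [norm_nonneg (seqMean 0 a)]
    have h4 : ‖seqMean 0 b‖ ^ 2 ≤ 1 := by nlinarith [norm_nonneg (seqMean 0 b)]
    simp only [testF, norm_zero, Nat.cast_zero, mul_zero, zero_add]
    exact div_nonneg (by linarith) hl.le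
  | succ n ih =>
    intro a b ha hb
    have h1 := ih a b ha hb
    have h2 := ih (fun i => a (i + 2 ^ n)) (fun i => b (i + 2 ^ n)) (fun _ => ha _) (fun _ => hb _)
    have ma := norm_seqMean_le (n + 1) ha
    have mb := norm_seqMean_le (n + 1) hb
    simp only [testF]
    rw [blockMean_mul n (fun i => a (i + 2 ^ n)) b, blockMean_mul n a (fun i => b (i + 2 ^ n))]
    rw [seqMean_succ] at ma mb
    rw [seqMean_succ, seqMean_succ]
    set u := seqMean n a
    set u' := seqMean n fun i => a (i + 2 ^ n)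
    set v := seqMean n b
    set v' := seqMean n fun i => b (i + 2 ^ n)
    have pa := par_law u u'
    have pb := par_law v v'
    have e : u' * v - u * v' = 2 * ((u' - u) / 2 * ((v + v') / 2) - (u + u') / 2 * ((v' - v) / 2)) := by
      ring
    have h3 : ‖u' * v - u * v'‖ ≤ 2 * (‖(u' - u) / 2‖ + ‖(v' - v) / 2‖) := by
      rw [e, norm_mul, Complex.norm_ofNat]
      refine mul_le_mul_of_nonneg_left ((norm_sub_le _ _).trans ?_) (by norm_num)
      rw [norm_mul, norm_mul]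
      exact add_le_add (mul_le_of_le_one_right (norm_nonneg _) mb)
        (mul_le_of_le_one_left (norm_nonneg _) ma)
    have amgm : ∀ d : ℝ, 2 * d ≤ l + d ^ 2 / l := fun d => by
      rw [add_div' _ _ _ hl.ne', le_div_iff₀ hl]
      nlinarith [sq_nonneg (l - d)]
    have h4 := amgm ‖(u' - u) / 2‖
    have h5 := amgm ‖(v' - v) / 2‖
    refine (norm_add_le _ _).trans ?_
    rw [norm_smul, norm_inv, Complex.norm_ofNat]
    have h6 := norm_add_le (testF n fun i j => a i * b j)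
      (testF n fun i j => a (i + 2 ^ n) * b (j + 2 ^ n))
    have e2 : (2 - ‖(u + u') / 2‖ ^ 2 - ‖(v + v') / 2‖ ^ 2) / l
        = 2⁻¹ * ((2 - ‖u‖ ^ 2 - ‖v‖ ^ 2) / l + (2 - ‖u'‖ ^ 2 - ‖v'‖ ^ 2) / l)
          + ‖(u' - u) / 2‖ ^ 2 / l + ‖(v' - v) / 2‖ ^ 2 / l := by
      field_simp
      linarith
    rw [e2]
    push_cast
    linarith

theorem norm_testF_sq_le (k : ℕ) (hk : 0 < k) (a b : ℕ → ℂ) (ha : ∀ i, ‖a i‖ ≤ 1)
    (hb : ∀ i, ‖b i‖ ≤ 1) : ‖testF (k ^ 2) (fun i j => a i * b j)‖ ≤ 4 * k := by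
  have hk' : (0 : ℝ) < k := by exact_mod_cast hk
  refine (norm_testF_le (l := (k : ℝ)⁻¹) (by positivity) _ a b ha hb).trans ?_
  have h1 : 2 * (k : ℝ)⁻¹ * ((k ^ 2 : ℕ) : ℝ) = 2 * k := by
    push_cast
    field_simp
  rw [h1, div_inv_eq_mul]
  nlinarith [sq_nonneg ‖seqMean (k ^ 2) a‖, sq_nonneg ‖seqMean (k ^ 2) b‖]

end Pool.Agent.Work.MP_92c8f1_an
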