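import Mathlib.Topology.ContinuousMap.StoneWeierstrass
import Mathlib.Analysis.Complex.Basic

/-!
The compact space of upper sets of a linear order and its canonical idempotents.
-/

namespace Pool.Agent.Work.MP_92c8f1_an

open Set

/-- the compact space of monotone Boolean functions on a linear order -/
abbrev Om (Λ : Type) [LinearOrder Λ] : Type := {U : Λ → Bool // Monotone U}

variable {Λ : Type} [LinearOrder Λ]

theorem isClosed_monotone : IsClosed {U : Λ → Bool | Monotone U} := by
  have : {U : Λ → Bool | Monotone U} = ⋂ a, ⋂ b, ⋂ _ : a ≤ b, {U | U a ≤ U b} := by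
    ext U
    simp only [mem_ofPred_eq, mem_iInter]
    exact ⟨fun h a b hab => h hab, fun h a b hab => h a b hab⟩
  rw [this]
  refine isClosed_iInter fun a => isClosed_iInter fun b => isClosed_iInter fun _ => ?_
  exact (isClosed_discrete {p : Bool × Bool | p.1 ≤ p.2}).preimage
    (f := fun U : Λ → Bool => (U a, U b)) (by fun_prop)

instance compactSpace_Om : CompactSpace (Om Λ) :=
  isCompact_iff_compactSpace.1 isClosed_monotone.isCompact

/-- value of a point at an index, with value `true` at the top -/
def bv (U : Om Λ) (s : WithTop Λ) : Bool := s.recTopCoe true U.1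

@[simp] theorem bv_top (U : Om Λ) : bv U ⊤ = true := rfl
@[simp] theorem bv_coe (U : Om Λ) (α : Λ) : bv U α = U.1 α := rfl

theorem bv_mono (U : Om Λ) : Monotone (bv U) := by
  intro s t h
  induction t using WithTop.recTopCoe with
  | top => simp
  | coe t =>
    induction s using WithTop.recTopCoe with
    | top => simp at h
    | coe s => exact U.2 (WithTop.coe_le_coe.1 h)

theorem continuous_bv (s : WithTop Λ) : Continuous fun U : Om Λ => bv U s := by
  induction s using WithTop.recTopCoe with
  | top => exact continuous_const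
  | coe s => exact (continuous_apply s).comp continuous_subtype_val

/-- the canonical idempotents -/
noncomputable def ee (s : WithTop Λ) : C(Om Λ, ℂ) :=
  ⟨fun U => if bv U s then 1 else 0,
    (continuous_of_discreteTopology (f := fun b : Bool => if b then (1 : ℂ) else 0)).comp
      (continuous_bv s)⟩

theorem ee_apply (s : WithTop Λ) (U : Om Λ) : ee s U = if bv U s then 1 else 0 := rfl

theorem ee_top : ee (⊤ : WithTop Λ) = 1 := by ext U; simp [ee_apply]

theorem ee_mul_of_le {s t : WithTop Λ} (h : s ≤ t) : ee s * ee t = ee s := by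
  ext U
  have := bv_mono U h
  simp only [ContinuousMap.mul_apply, ee_apply]
  cases hs : bv U s <;> cases ht : bv U t <;> simp_all
  exact absurd this (by decide)

theorem ee_mul (s t : WithTop Λ) : ee s * ee t = ee (min s t) := by
  rcases le_total s t with h | h
  · rw [min_eq_left h, ee_mul_of_le h]
  · rw [min_eq_right h, mul_comm, ee_mul_of_le h]

theorem norm_ee_le (s : WithTop Λ) : ‖ee s‖ ≤ 1 := by
  rw [ContinuousMap.norm_le _ zero_le_one]
  intro U
  rw [ee_apply]
  split_ifs <;> simp

/-- the point at infinity -/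
def infty (Λ : Type) [LinearOrder Λ] : Om Λ := ⟨fun _ => false, monotone_const⟩

/-- the point attached to an index -/
def pt (x : Λ) : Om Λ :=
  ⟨fun α => decide (x ≤ α), fun a b h => by
    by_cases hx : x ≤ a
    · simp [hx, hx.trans h]
    · simp [hx]⟩

theorem ee_infty (α : Λ) : ee (α : WithTop Λ) (infty Λ) = 0 := by simp [ee_apply, infty]

theorem ee_pt (α x : Λ) : ee (α : WithTop Λ) (pt x) = if x ≤ α then 1 else 0 := by
  simp [ee_apply, pt]

/-- the character: evaluation at infinity -/
noncomputable def chi (Λ : Type) [LinearOrder Λ] : C(Om Λ, ℂ) →L[ℂ] ℂ :=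
  ContinuousMap.evalCLM ℂ (infty Λ)

theorem chi_apply (a : C(Om Λ, ℂ)) : chi Λ a = a (infty Λ) := rfl

theorem chi_mul (a b : C(Om Λ, ℂ)) : chi Λ (a * b) = chi Λ a * chi Λ b := rfl

theorem chi_ee (α : Λ) : chi Λ (ee (α : WithTop Λ)) = 0 := ee_infty α

theorem eq_top_of_closed (N : Submodule ℂ C(Om Λ, ℂ)) (hN : IsClosed (N : Set C(Om Λ, ℂ)))
    (h : ∀ s, ee s ∈ N) : N = ⊤ := by
  let B : StarSubalgebra ℂ C(Om Λ, ℂ) :=
    { carrier := Submodule.span ℂ (range (ee (Λ := Λ)))
      mul_mem' := by
        intro a b ha hb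
        refine Submodule.span_induction₂ (p := fun a b _ _ => a * b ∈ Submodule.span ℂ
          (range (ee (Λ := Λ)))) ?_ ?_ ?_ ?_ ?_ ?_ ?_ ha hb
        · rintro _ _ ⟨s, rfl⟩ ⟨t, rfl⟩
          exact Submodule.subset_span ⟨_, (ee_mul s t).symm⟩
        · intro y _; simp
        · intro y _; simp
        · intro x y z _ _ _ h1 h2; rw [add_mul]; exact add_mem h1 h2
        · intro x y z _ _ _ h1 h2; rw [mul_add]; exact add_mem h1 h2
        · intro r x y _ _ h1; rw [smul_mul_assoc]; exact Submodule.smul_mem _ _ h1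
        · intro r x y _ _ h1; rw [mul_smul_comm]; exact Submodule.smul_mem _ _ h1
      add_mem' := fun ha hb => add_mem ha hb
      algebraMap_mem' := fun r => by
        rw [Algebra.algebraMap_eq_smul_one]
        exact Submodule.smul_mem _ _ (Submodule.subset_span ⟨⊤, ee_top⟩)
      star_mem' := by
        intro a ha
        refine Submodule.span_induction (p := fun a _ => star a ∈ Submodule.span ℂ
          (range (ee (Λ := Λ)))) ?_ ?_ ?_ ?_ ha
        · rintro _ ⟨s, rfl⟩
          refine Submodule.subset_span ⟨s, ?_⟩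
          ext U
          simp only [ContinuousMap.star_apply, ee_apply]
          split_ifs <;> simp
        · simp
        · intro x y _ _ h1 h2; rw [star_add]; exact add_mem h1 h2
        · intro r x _ h1; rw [star_smul]; exact Submodule.smul_mem _ _ h1 }
  have hB : B.SeparatesPoints := by
    intro U V hUV
    obtain ⟨α, hα⟩ : ∃ α, U.1 α ≠ V.1 α := by
      by_contra hcon
      push Not at hcon
      exact hUV (Subtype.ext (funext hcon))
    refine ⟨ee (α : WithTop Λ), ⟨ee (α : WithTop Λ), Submodule.subset_span ⟨_, rfl⟩, rfl⟩, ?_⟩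
    have hα' : bv U α ≠ bv V α := hα
    simp only [ee_apply]
    cases h1 : bv U α <;> cases h2 : bv V α <;> simp_all
  have htop := ContinuousMap.starSubalgebra_topologicalClosure_eq_top_of_separatesPoints B hB
  rw [eq_top_iff]
  intro a _
  have ha : a ∈ B.topologicalClosure := htop ▸ StarSubalgebra.mem_top
  have hsub : (B : Set C(Om Λ, ℂ)) ⊆ N := by
    intro b hb
    exact Submodule.span_le.2 (by rintro _ ⟨s, rfl⟩; exact h s) hb
  exact closure_minimal hsub hN ha

open Classical in
/-- the retraction attached to a lower set -/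
noncomputable def retr (θ : Set Λ) (hθ : IsLowerSet θ) : C(Om Λ, Om Λ) where
  toFun U := ⟨fun α => if α ∈ θ then U.1 α else true, fun a b h => by
    by_cases hb : b ∈ θ
    · simp only [hb, hθ h hb, if_true]; exact U.2 h
    · simp [hb]⟩
  continuous_toFun := by
    refine Continuous.subtype_mk (continuous_pi fun α => ?_) _
    by_cases hα : α ∈ θ
    · simp only [hα, if_true]; exact (continuous_apply α).comp continuous_subtype_val
    · simp only [hα, if_false]; exact continuous_const

/-- the induced map on functions -/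
noncomputable def RR (θ : Set Λ) (hθ : IsLowerSet θ) : C(Om Λ, ℂ) →L[ℂ] C(Om Λ, ℂ) :=
  ContinuousMap.compCLM ℂ ℂ (retr θ hθ)

/-- indices allowed by a set: its elements and the top -/
def Allowed (θ : Set Λ) (s : WithTop Λ) : Prop := ∀ α : Λ, s = α → α ∈ θ

theorem RR_ee_of_allowed {θ : Set Λ} (hθ : IsLowerSet θ) {s : WithTop Λ} (hs : Allowed θ s) :
    RR θ hθ (ee s) = ee s := by
  ext U
  induction s using WithTop.recTopCoe with
  | top => rfl
  | coe α =>
    change (if bv (retr θ hθ U) α then (1 : ℂ) else 0) = if bv U α then 1 else 0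
    have : bv (retr θ hθ U) α = bv U α := by simp [retr, hs α rfl]
    rw [this]

theorem RR_ee_of_not_allowed {θ : Set Λ} (hθ : IsLowerSet θ) {s : WithTop Λ}
    (hs : ¬ Allowed θ s) : RR θ hθ (ee s) = ee ⊤ := by
  ext U
  induction s using WithTop.recTopCoe with
  | top => rfl
  | coe α =>
    have : α ∉ θ := fun h => hs fun β hβ => by
      obtain rfl := WithTop.coe_injective hβ
      exact h
    change (if bv (retr θ hθ U) α then (1 : ℂ) else 0) = if bv U ⊤ then 1 else 0
    simp [retr, this]

omit [LinearOrder Λ] in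
theorem allowed_top (θ : Set Λ) : Allowed θ ⊤ := fun _ h => absurd h (by simp)

omit [LinearOrder Λ] in
theorem allowed_coe {θ : Set Λ} {α : Λ} (h : α ∈ θ) : Allowed θ α := fun β hβ => by
  obtain rfl := WithTop.coe_injective hβ
  exact h

theorem Allowed.min {θ : Set Λ} {s t : WithTop Λ} (hs : Allowed θ s) (ht : Allowed θ t) :
    Allowed θ (min s t) := by
  rcases min_choice s t with h | h <;> rwa [h]

omit [LinearOrder Λ] in
theorem Allowed.mono {θ θ' : Set Λ} {s : WithTop Λ} (hs : Allowed θ s) (h : θ ⊆ θ') :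
    Allowed θ' s := fun α hα => h (hs α hα)

theorem norm_sum_jumps_le (γ : ℕ → WithTop Λ) (hγ : Monotone γ) (c : ℕ → ℂ)
    (hc : ∀ k, ‖c k‖ ≤ 1) (N : ℕ) :
    ‖∑ k ∈ Finset.range N, c k • (ee (γ (k + 1)) - ee (γ k))‖ ≤ 1 := by
  rw [ContinuousMap.norm_le _ zero_le_one]
  intro U
  let u : ℕ → ℝ := fun k => if bv U (γ k) then 1 else 0
  have hu : ∀ k, ‖c k • (ee (γ (k + 1)) U - ee (γ k) U)‖ ≤ u (k + 1) - u k := by
    intro k
    have := bv_mono U (hγ (Nat.le_succ k))
    have hk := hc k
    simp only [ee_apply, u]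
    cases h1 : bv U (γ k) <;> cases h2 : bv U (γ (k + 1)) <;> simp_all
    exact absurd this (by decide)
  rw [ContinuousMap.coe_sum, Finset.sum_apply]
  refine (norm_sum_le _ _).trans ((Finset.sum_le_sum fun k _ => hu k).trans ?_)
  rw [Finset.sum_range_sub]
  simp only [u]
  split_ifs <;> norm_num

end Pool.Agent.Work.MP_92c8f1_an
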